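import Pool.Agent.Helper70.GUM.St1

/-!
Project GUM (MP_0bd1d1_al), module POW: the powers of `XR r ε_1` and `XL r ε_1`.
-/

set_option autoImplicit false

namespace Pool.Agent.Helper78.GUM

open Pool.Agent.Helper70.GUM Module OG UN
open scoped Classical

universe u v w z

section gen

variable {R M : Type*} [CommRing R] [AddCommGroup M] [Module R M]

private theorem telescope (a : ℕ → M) (n : ℕ) :
    ∑ j ∈ Finset.range (n + 1), (j : R) • a (j + 1) - ∑ j ∈ Finset.range (n + 1), (j : R) • a j =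
      (n : R) • a (n + 1) - ∑ j ∈ Finset.range (n + 1), a j + a 0 := by
  induction n with
  | zero => simp
  | succ n ih =>
    rw [Finset.sum_range_succ (fun j => (j : R) • a (j + 1)),
      Finset.sum_range_succ (fun j => (j : R) • a j), Finset.sum_range_succ a]
    rw [show ∑ j ∈ Finset.range (n + 1), (j : R) • a (j + 1) =
      (n : R) • a (n + 1) - ∑ j ∈ Finset.range (n + 1), a j + a 0 +
        ∑ j ∈ Finset.range (n + 1), (j : R) • a j from sub_eq_iff_eq_add.1 ih]
    push_cast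
    module

private theorem Pw_of {q : ℕ} (hq : 1 ≤ q) {V : Submodule R M} {T : M →ₗ[R] M}
    {Tj : ℕ → (M →ₗ[R] M)} (h1 : T = Tj 1)
    (hs : ∀ f ∈ V, ∀ j, 1 ≤ j → j < q → T (Tj j f) = Tj (j + 1) f)
    (hl : ∀ f ∈ V, T (Tj q f) = f) (hsum : ∀ f ∈ V, ∑ j ∈ Finset.Icc 1 q, Tj j f = -f) :
    Pw q V T Tj := by
  have pw : ∀ f ∈ V, ∀ j, 1 ≤ j → j ≤ q → (T ^ j) f = Tj j f := by
    intro f hf j hj
    induction j, hj using Nat.le_induction with
    | base => intro _; rw [pow_one, h1]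
    | succ j hj ih =>
      intro hjq
      rw [pow_succ', Module.End.mul_apply, ih (by omega), hs f hf j hj (by omega)]
  have one : ∀ f ∈ V, (T ^ (q + 1)) f = f := by
    intro f hf
    rw [pow_succ', Module.End.mul_apply, pw f hf q hq le_rfl, hl f hf]
  have sum : ∀ f ∈ V, ∑ j ∈ Finset.range (q + 1), (T ^ j) f = 0 := by
    intro f hf
    have e : ∑ j ∈ Finset.Icc 1 q, (T ^ j) f = -f := by
      rw [← hsum f hf]
      refine Finset.sum_congr rfl fun j hj => ?_
      rw [Finset.mem_Icc] at hj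
      exact pw f hf j hj.1 hj.2
    rw [Finset.sum_range_succ' (fun j => (T ^ j) f) q, pow_zero, Module.End.one_apply]
    have e2 : ∑ j ∈ Finset.range q, (T ^ (j + 1)) f = ∑ j ∈ Finset.Icc 1 q, (T ^ j) f := by
      rw [Finset.range_eq_Ico, Finset.sum_Ico_add' (fun j => (T ^ j) f) 0 q 1]
      rfl
    rw [e2, e, neg_add_cancel]
  have zz : ∀ f ∈ V, T (ZZ q T f) - ZZ q T f = ((q : R) + 1) • f := by
    intro f hf
    have e1 : ZZ q T f = ∑ j ∈ Finset.range (q + 1), (j : R) • (T ^ j) f := by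
      rw [ZZ, LinearMap.sum_apply]
      rfl
    have e2 : T (ZZ q T f) = ∑ j ∈ Finset.range (q + 1), (j : R) • (T ^ (j + 1)) f := by
      rw [e1, map_sum]
      refine Finset.sum_congr rfl fun j _ => ?_
      rw [map_smul, pow_succ', Module.End.mul_apply]
    rw [e2, e1, telescope (R := R) (fun j => (T ^ j) f) q, one f hf, sum f hf, pow_zero,
      Module.End.one_apply]
    module
  refine ⟨pw, one, sum, zz, ?_⟩
  intro f hf
  have e : ZZ q T (T f) = T (ZZ q T f) := by
    rw [ZZ, LinearMap.sum_apply, LinearMap.sum_apply, map_sum]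
    refine Finset.sum_congr rfl fun j _ => ?_
    rw [LinearMap.smul_apply, LinearMap.smul_apply, map_smul, ← Module.End.mul_apply (T ^ j) T,
      ← pow_succ, pow_succ', Module.End.mul_apply]
  rw [map_sub, e, zz f hf]

end gen

section main

variable {k F R K : Type*} [Field k] [Fintype k] [Field F] [Fintype F] [Algebra k F]
  {σ : F ≃ₐ[k] F} [CommRing R] [Field K] [Algebra R K] {hσ : QE σ} {χ : AddChar F R} {r : R} {x : F}

omit [Fintype F] in
private theorem ep_step (hx1 : x ≠ 1) {j : ℕ} (hj : x ^ j ≠ 1) :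
    ep x 1 + ep x j - 1 = (1 - x ^ (j + 1)) * (ep x 1 * ep x j) := by
  have h1 : 1 - x ≠ 0 := sub_ne_zero.2 (Ne.symm hx1)
  have h2 : 1 - x ^ j ≠ 0 := sub_ne_zero.2 (Ne.symm hj)
  unfold ep
  rw [pow_one]
  field_simp
  ring

private theorem char_sum (S : Sums σ χ x) (n : k) :
    ∑ j ∈ Finset.Icc 1 (Nat.card k), χ ((ep x j - ep x 1) * algebraMap k F n) =
      if n = 0 then ((Nat.card k : ℕ) : R) else 0 := by
  have hq : 1 ≤ Nat.card k := le_trans (by norm_num) S.two
  rw [S.ep_sum (fun ε => χ ((ε - ep x 1) * algebraMap k F n)) (ep x 1) (S.tr1 1 le_rfl hq)]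
  simp only [add_sub_cancel_left]
  split_ifs with h
  · rw [h, map_zero]
    simp only [mul_zero, AddChar.map_zero_eq_one]
    rw [Finset.sum_const, S.cardF0, nsmul_eq_mul, mul_one]
  · rw [← S.s0 n h]
    refine Finset.sum_congr rfl fun z _ => ?_
    rw [mul_comm]

private theorem sc_eq (S : Sums σ χ x) {j : ℕ} (h1 : 1 ≤ j) (h2 : j ≤ Nat.card k) (a : F) :
    (ep x j - ep x 1) * (a * σ a) + σ ((ep x j - ep x 1) * (a * σ a)) = 0 ∧
      sc hσ (ep x j) a = cen hσ ((ep x j - ep x 1) * (a * σ a)) * sc hσ (ep x 1) a := by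
  have hq : 1 ≤ Nat.card k := le_trans h1 h2
  have e1 := S.tr1 1 le_rfl hq
  have ej := S.tr1 j h1 h2
  have hz : (ep x j - ep x 1) * (a * σ a) + σ ((ep x j - ep x 1) * (a * σ a)) = 0 := by
    rw [map_mul, map_sub, map_mul, hσ.inv a]
    linear_combination (a * σ a) * (ej - e1)
  refine ⟨hz, ?_⟩
  apply Hei.ext
  · rw [Hei.mul_a, sc_a ej, sc_a e1, cen_a hz, zero_add]
  · rw [Hei.mul_c, sc_c ej, sc_c e1, cen_c hz, cen_a hz, sc_a e1, map_zero]
    ring

omit [Fintype k] [Fintype F] in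
private theorem sc_zero (hσ : QE σ) (ε : F) : sc hσ ε 0 = 1 := by
  unfold sc pt
  split_ifs with h
  · apply Hei.ext
    · rw [Hei.one_a]
    · rw [Hei.one_c]
      simp
  · rfl

/-- Common part of the two sums. -/
private theorem sum_aux (hC : Ctx K σ χ r x) (S : Sums σ χ x) (s : k) (hs : s ≠ 0) (φ : F → K) :
    -(r • ∑ a : F, ∑ j ∈ Finset.Icc 1 (Nat.card k),
      χ ((ep x j - ep x 1) * (algebraMap k F s * (a * σ a))) • φ a) = -φ 0 := by
  have e : ∀ a : F, ∑ j ∈ Finset.Icc 1 (Nat.card k),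
      χ ((ep x j - ep x 1) * (algebraMap k F s * (a * σ a))) • φ a =
      if a = 0 then ((Nat.card k : ℕ) : R) • φ 0 else 0 := by
    intro a
    obtain ⟨n, hn⟩ := S.nrm a
    rw [← Finset.sum_smul, ← hn, ← map_mul, char_sum S (s * n)]
    by_cases h : a = 0
    · have h0 : n = 0 := by
        have : algebraMap k F n = 0 := by rw [hn, h, zero_mul]
        exact (map_eq_zero _).1 this
      rw [if_pos h, h0, mul_zero, if_pos rfl, h]
    · have h0 : n ≠ 0 := by
        intro h0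
        rw [h0, map_zero] at hn
        rcases mul_eq_zero.1 hn.symm with h' | h'
        · exact h h'
        · exact h ((map_eq_zero σ).1 h')
      rw [if_neg h, if_neg (mul_ne_zero hs h0), zero_smul]
  rw [Finset.sum_congr rfl fun a _ => e a, Finset.sum_ite_eq' Finset.univ (0 : F),
    if_pos (Finset.mem_univ _), smul_smul, hC.inv, one_smul]

private theorem sum_XR (hC : Ctx K σ χ r x) (S : Sums σ χ x) (hB : Bas (K := K) hσ χ r)
    (f : Hei hσ → K) (hf : f ∈ Fun R K hσ χ) :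
    ∑ j ∈ Finset.Icc 1 (Nat.card k), XR r (ep x j) f = -f := by
  funext g
  rw [Finset.sum_apply, Pi.neg_apply]
  have e : ∀ j ∈ Finset.Icc 1 (Nat.card k), XR r (ep x j) f g =
      -(r • ∑ a : F, χ ((ep x j - ep x 1) * (algebraMap k F (-1) * (a * σ a))) •
        f (g * sc hσ (ep x 1) a)) := by
    intro j hj
    rw [Finset.mem_Icc] at hj
    rw [XR_apply]
    congr 2
    refine Finset.sum_congr rfl fun a _ => ?_
    obtain ⟨hz, hs⟩ := sc_eq (hσ := hσ) S hj.1 hj.2 a
    rw [hs, hB.fcen f hf g _ _ hz]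
    congr 2
    rw [map_neg, map_one]
    ring
  rw [Finset.sum_congr rfl e, Finset.sum_neg_distrib, ← Finset.smul_sum, Finset.sum_comm,
    sum_aux hC S (-1) (neg_ne_zero.2 one_ne_zero) (fun a => f (g * sc hσ (ep x 1) a)),
    sc_zero, mul_one]

private theorem sum_XL (hC : Ctx K σ χ r x) (S : Sums σ χ x) (hB : Bas (K := K) hσ χ r)
    (f : Hei hσ → K) (hf : f ∈ Fun R K hσ χ) :
    ∑ j ∈ Finset.Icc 1 (Nat.card k), XL r (ep x j) f = -f := by
  funext g
  rw [Finset.sum_apply, Pi.neg_apply]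
  have e : ∀ j ∈ Finset.Icc 1 (Nat.card k), XL r (ep x j) f g =
      -(r • ∑ a : F, χ ((ep x j - ep x 1) * (algebraMap k F 1 * (a * σ a))) •
        f ((sc hσ (ep x 1) a)⁻¹ * g)) := by
    intro j hj
    rw [Finset.mem_Icc] at hj
    rw [XL_apply]
    congr 2
    refine Finset.sum_congr rfl fun a _ => ?_
    obtain ⟨hz, hs⟩ := sc_eq (hσ := hσ) S hj.1 hj.2 a
    have hz' : -((ep x j - ep x 1) * (a * σ a)) + σ (-((ep x j - ep x 1) * (a * σ a))) = 0 := by
      rw [map_neg]
      linear_combination -hz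
    rw [hs, mul_inv_rev, hB.cinv _ hz, mul_assoc, hB.fcen f hf _ _ _ hz', neg_neg]
    congr 2
    rw [map_one, one_mul]
  rw [Finset.sum_congr rfl e, Finset.sum_neg_distrib, ← Finset.smul_sum, Finset.sum_comm,
    sum_aux hC S 1 one_ne_zero (fun a => f ((sc hσ (ep x 1) a)⁻¹ * g)),
    sc_zero, inv_one, one_mul]

end main

/-- MODULE POW. -/
theorem hPOW (hCMP : StCMP.{u, v, w, z}) : StPOW.{u, v, w, z} := by
  intro k F R K _ _ _ _ _ σ _ _ _ _ hσ χ r x hC S hB
  have hq : 1 ≤ Nat.card k := le_trans (by norm_num) S.two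
  have hx1 : x ≠ 1 := by
    have := hC.xj 1 le_rfl hq
    rwa [pow_one] at this
  have e1 := S.tr1 1 le_rfl hq
  have hstep : ∀ j, 1 ≤ j → j < Nat.card k → ep x 1 + ep x j ≠ 1 ∧
      ep x 1 * ep x j / (ep x 1 + ep x j - 1) = ep x (j + 1) := by
    intro j hj hjq
    have hj1 := hC.xj j hj hjq.le
    have h2 := hC.xj (j + 1) (by omega) (by omega)
    have h3 := ep_step hx1 hj1
    have h4 : 1 - x ^ (j + 1) ≠ 0 := sub_ne_zero.2 (Ne.symm h2)
    have h5 : ep x 1 ≠ 0 := by
      unfold ep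
      rw [pow_one]
      exact inv_ne_zero (sub_ne_zero.2 (Ne.symm hx1))
    have h6 : ep x j ≠ 0 := by
      unfold ep
      exact inv_ne_zero (sub_ne_zero.2 (Ne.symm hj1))
    refine ⟨?_, ?_⟩
    · intro h
      rw [sub_eq_zero.2 h] at h3
      exact mul_ne_zero h4 (mul_ne_zero h5 h6) h3.symm
    · rw [h3]
      unfold ep at h5 h6 ⊢
      field_simp
  have hlast : ep x 1 + ep x (Nat.card k) = 1 := by
    have h3 := ep_step hx1 (hC.xj (Nat.card k) hq le_rfl)
    rw [hC.x1, sub_self, zero_mul] at h3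
    exact sub_eq_zero.1 h3
  constructor
  · refine Pw_of hq rfl ?_ ?_ (fun f hf => sum_XR hC S hB f hf)
    · intro f hf j hj hjq
      obtain ⟨h2, h3⟩ := hstep j hj hjq
      have := ((hCMP hσ hC S hB (ep x 1) (ep x j) e1 (S.tr1 j hj hjq.le) f hf).1 h2).1
      rw [h3] at this
      exact this
    · intro f hf
      exact ((hCMP hσ hC S hB (ep x 1) (ep x (Nat.card k)) e1 (S.tr1 _ hq le_rfl) f hf).2 hlast).1
  · refine Pw_of hq rfl ?_ ?_ (fun f hf => sum_XL hC S hB f hf)
    · intro f hf j hj hjq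
      obtain ⟨h2, h3⟩ := hstep j hj hjq
      have := ((hCMP hσ hC S hB (ep x 1) (ep x j) e1 (S.tr1 j hj hjq.le) f hf).1 h2).2
      rw [h3] at this
      exact this
    · intro f hf
      exact ((hCMP hσ hC S hB (ep x 1) (ep x (Nat.card k)) e1 (S.tr1 _ hq le_rfl) f hf).2 hlast).2

end Pool.Agent.Helper78.GUM
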