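import Pool.Agent.Helper60.GUM.St

/-!
Project GUM (MP_0bd1d1_al), module TYP: the three types of totally isotropic subspaces.
-/

set_option autoImplicit false

namespace Pool.Agent.Helper78.GUM

open Module
open _root_.GUM
open OG (mem_smul smul_def)

variable {k F X : Type*} [Field k] [Field F] [Algebra k F] [AddCommGroup X] [Module F X]
  {σ : F ≃ₐ[k] F} {B : HForm σ X} {Y : Submodule F X} {p p' : X} {j : ℕ}

private theorem eV_app (h : HP B Y p p') (v : ↥(pp B Y p p')) (c : F) (x : X) :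
    eV h v c x = x + B.f x p • v.1 - B.f x v.1 • p + (c * B.f x p) • p :=
  hE_apply B p v.1 c h.q1 (mem_pp.1 v.2).2.1 x

private theorem eV_iso (h : HP B Y p p') (v : ↥(pp B Y p p')) (c : F) (hc : Adm B v.1 c)
    (x y : X) : B.f (eV h v c x) (eV h v c y) = B.f x y := by
  have hv : B.f v.1 p = 0 := (mem_pp.1 v.2).2.1
  have hpv : B.f p v.1 = 0 := B.swap0 hv
  have e1 : B.f v.1 y = σ (B.f y v.1) := B.sym y v.1
  have e2 : B.f p y = σ (B.f y p) := B.sym y p
  have hc' : c + σ c + B.f v.1 v.1 = 0 := hc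
  rw [eV_app, eV_app]
  simp only [B.add, B.sub_l, B.smul, B.add_r, B.sub_r, B.smul_r, h.q1, hv, hpv, e1, e2, map_mul]
  linear_combination (B.f x p * σ (B.f y p)) * hc'

private theorem HPs (h : HP B Y p p') : HP B Y p' p :=
  ⟨h.m2, h.m1, h.q2, h.q1, B.swap1 h.b⟩

private theorem pp_symm : pp B Y p' p = pp B Y p p' := by
  unfold pp
  rw [inf_comm (LinearMap.ker (B.l p'))]

private theorem type1 [FiniteDimensional F X] (h : HP B Y p p') (W : Submodule F X)
    (hW : W ∈ Sk B Y j) (hp : p ∈ W) :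
    ∃ i, j = i + 1 ∧ ∃ A ∈ Sk B (pp B Y p p') i, W = jn p A := by
  obtain ⟨hWY, hWj, hWs⟩ := hW
  have hp0 : p ≠ 0 := by
    intro h0
    have := h.b
    rw [h0, B.zero_l] at this
    exact zero_ne_one this
  have hsup : W = Submodule.span F {p} ⊔ (W ⊓ pp B Y p p') := by
    apply le_antisymm
    · intro w hw
      rw [Submodule.mem_sup]
      refine ⟨B.f w p' • p, Submodule.smul_mem _ _ (Submodule.mem_span_singleton_self p),
        w - B.f w p' • p, ?_, by module⟩
      have hm : w - B.f w p' • p ∈ W := W.sub_mem hw (W.smul_mem _ hp)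
      refine ⟨hm, mem_pp.2 ⟨hWY hm, hWs _ hm _ hp, ?_⟩⟩
      rw [B.sub_l, B.smul, h.b, mul_one, sub_self]
    · exact sup_le ((Submodule.span_singleton_le_iff_mem p W).2 hp) inf_le_left
  have hdis : Submodule.span F {p} ⊓ (W ⊓ pp B Y p p') = ⊥ := by
    rw [eq_bot_iff]
    rintro x ⟨hx1, hx2⟩
    obtain ⟨c, rfl⟩ := Submodule.mem_span_singleton.1 hx1
    have h3 := (mem_pp.1 hx2.2).2.2
    rw [B.smul, h.b, mul_one] at h3
    rw [h3, zero_smul]
    exact Submodule.zero_mem _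
  refine ⟨finrank F (W ⊓ pp B Y p p' : Submodule F X), ?_, W ⊓ pp B Y p p',
    ⟨inf_le_right, rfl, fun x hx y hy => hWs x hx.1 y hy.1⟩, hsup⟩
  have h1 := Submodule.finrank_sup_add_finrank_inf_eq (Submodule.span F {p}) (W ⊓ pp B Y p p')
  rw [hdis, finrank_bot, add_zero, ← hsup, finrank_span_singleton hp0, hWj] at h1
  omega

private theorem type2 [FiniteDimensional F X] (hY : ND B Y) (h : HP B Y p p')
    (W : Submodule F X) (hW : W ∈ Sk B Y j) (hp : p ∉ W) (hpW : ∀ w ∈ W, B.f w p = 0) :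
    ∃ v : ↥(pp B Y p p'), ∃ A ∈ Sk B (pp B Y p p') j, ∀ c, W = eV h v c • A := by
  obtain ⟨hWY, hWj, hWs⟩ := hW
  have hb' : B.f p' p = 1 := B.swap1 h.b
  set π : X →ₗ[F] X := LinearMap.id - (B.l p').smulRight p with hπ
  have hπa : ∀ x, π x = x - B.f x p' • p := fun x => by simp [hπ, HForm.l_apply]
  have hπZ : ∀ w ∈ W, π w ∈ pp B Y p p' := by
    intro w hw
    rw [hπa, mem_pp]
    refine ⟨Y.sub_mem (hWY hw) (Y.smul_mem _ h.m1), ?_, ?_⟩
    · rw [B.sub_l, B.smul, hpW w hw, h.q1]; simp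
    · rw [B.sub_l, B.smul, h.b, mul_one, sub_self]
  have hπQ : ∀ w ∈ W, ∀ w' ∈ W, B.f (π w) (π w') = 0 := by
    intro w hw w' hw'
    rw [hπa, hπa]
    simp only [B.sub_l, B.smul, B.sub_r, B.smul_r, h.q1, hWs w hw w' hw', hpW w hw,
      B.swap0 (hpW w' hw')]
    simp
  have hπ0 : ∀ w ∈ W, π w = 0 → w = 0 := by
    intro w hw h0
    rw [hπa, sub_eq_zero] at h0
    by_cases hc : B.f w p' = 0
    · rw [h0, hc, zero_smul]
    · exfalso
      apply hp
      have : p = (B.f w p')⁻¹ • w := by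
        conv_rhs => rw [h0]
        rw [B.smul, h.b, mul_one, smul_smul, inv_mul_cancel₀ hc, one_smul]
      rw [this]
      exact W.smul_mem _ hw
  -- the functionals represented by elements of `pp`
  let R : Submodule F (Dual F W) :=
    { carrier := {φ | ∃ v : ↥(pp B Y p p'), ∀ w : W, φ w = B.f (π (w : X)) v.1}
      zero_mem' := ⟨0, fun w => by
        rw [Submodule.coe_zero, B.zero_r]; rfl⟩
      add_mem' := by
        rintro a b ⟨v, hv⟩ ⟨v', hv'⟩
        refine ⟨v + v', fun w => ?_⟩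
        rw [LinearMap.add_apply, hv, hv', Submodule.coe_add, B.add_r]
      smul_mem' := by
        rintro c a ⟨v, hv⟩
        refine ⟨σ.symm c • v, fun w => ?_⟩
        rw [LinearMap.smul_apply, hv, Submodule.coe_smul, B.smul_r, AlgEquiv.apply_symm_apply,
          smul_eq_mul] }
  have hR : R = ⊤ := by
    rw [← Subspace.dualCoannihilator_dualAnnihilator_eq (W := R)]
    have : R.dualCoannihilator = ⊥ := by
      rw [eq_bot_iff]
      intro w hw
      rw [Submodule.mem_dualCoannihilator] at hw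
      rw [Submodule.mem_bot]
      by_contra hne
      have hne' : (w : X) ≠ 0 := fun hh => hne (Subtype.ext hh)
      have hz : π (w : X) ≠ 0 := fun hh => hne' (hπ0 _ w.2 hh)
      obtain ⟨y, hy, hyp⟩ := hY (π (w : X)) (mem_pp.1 (hπZ _ w.2)).1 hz
      have hm := mem_pp.1 (hπZ _ w.2)
      have hzv : y - B.f y p' • p - B.f y p • p' ∈ pp B Y p p' := by
        rw [mem_pp]
        refine ⟨Y.sub_mem (Y.sub_mem hy (Y.smul_mem _ h.m1)) (Y.smul_mem _ h.m2), ?_, ?_⟩
        · simp only [B.sub_l, B.smul, h.q1, hb']; ring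
        · simp only [B.sub_l, B.smul, h.q2, h.b]; ring
      have h1 := hw ((B.l (y - B.f y p' • p - B.f y p • p')).comp (π.comp W.subtype))
        ⟨⟨_, hzv⟩, fun w => rfl⟩
      have h2 : B.f (π (w : X)) (y - B.f y p' • p - B.f y p • p') = 0 := h1
      rw [B.sub_r, B.sub_r, B.smul_r, B.smul_r, hm.2.1, hm.2.2] at h2
      apply hyp
      simpa using h2
    rw [this, Submodule.dualAnnihilator_bot]
  have hmem : (-((B.l p').comp W.subtype) : Dual F W) ∈ R := by rw [hR]; trivial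
  obtain ⟨v, hv⟩ := hmem
  have hv' : ∀ w ∈ W, B.f (π w) v.1 = -B.f w p' := by
    intro w hw
    have := hv ⟨w, hw⟩
    rw [← this]
    rfl
  refine ⟨v, W.map π, ⟨?_, ?_, ?_⟩, ?_⟩
  · rintro _ ⟨w, hw, rfl⟩
    exact hπZ w hw
  · have hinj : Function.Injective (π.domRestrict W) := by
      rw [injective_iff_map_eq_zero]
      intro w hw
      exact Subtype.ext (hπ0 _ w.2 hw)
    have := LinearMap.finrank_range_of_inj hinj
    rw [LinearMap.range_domRestrict] at this
    rw [this, hWj]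
  · rintro _ ⟨w, hw, rfl⟩ _ ⟨w', hw', rfl⟩
    exact hπQ w hw w' hw'
  · intro c
    have key : ∀ w ∈ W, eV h v c (π w) = w := by
      intro w hw
      have hm := mem_pp.1 (hπZ _ hw)
      rw [eV_app, hm.2.1, hv' w hw, hπa]
      module
    apply le_antisymm
    · intro w hw
      exact (mem_smul _ _ _).2 ⟨π w, ⟨w, hw, rfl⟩, key w hw⟩
    · intro x hx
      obtain ⟨_, ⟨w, hw, rfl⟩, rfl⟩ := (mem_smul _ _ _).1 hx
      rw [key w hw]
      exact hw

private theorem type3 [FiniteDimensional F X] (h : HP B Y p p') (W : Submodule F X)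
    (hW : W ∈ Sk B Y j) (w : X) (hw : w ∈ W) (hpw : B.f w p ≠ 0) :
    ∃ i, j = i + 1 ∧ ∃ v : ↥(pp B Y p p'), ∃ c, Adm B v.1 c ∧ ∃ A ∈ Sk B (pp B Y p p') i,
      W = eV h v c • jn p' A := by
  obtain ⟨hWY, hWj, hWs⟩ := hW
  have hb' : B.f p' p = 1 := B.swap1 h.b
  set w' : X := (B.f w p)⁻¹ • w with hw'
  have hw'W : w' ∈ W := W.smul_mem _ hw
  have hpw' : B.f w' p = 1 := by
    rw [hw', B.smul, inv_mul_cancel₀ hpw]
  set c : F := B.f w' p' with hc
  set v : X := w' - p' - c • p with hvdef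
  have hvY : v ∈ Y := Y.sub_mem (Y.sub_mem (hWY hw'W) h.m2) (Y.smul_mem _ h.m1)
  have hpv : B.f v p = 0 := by
    rw [hvdef]
    simp only [B.sub_l, B.smul, h.q1, hb', hpw']; ring
  have hp'v : B.f v p' = 0 := by
    rw [hvdef]
    simp only [B.sub_l, B.smul, h.q2, h.b, ← hc]; ring
  have hvZ : v ∈ pp B Y p p' := mem_pp.2 ⟨hvY, hpv, hp'v⟩
  have hsum : w' = (p' + v) + c • p := by rw [hvdef]; module
  have hAdm : Adm B v c := by
    have h1 : B.f w' w' = 0 := hWs _ hw'W _ hw'W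
    change c + σ c + B.f v v = 0
    clear_value c v
    rw [hsum] at h1
    simp only [B.add, B.smul, B.add_r, B.smul_r, h.q1, h.q2, h.b, hb', hpv, hp'v,
      B.swap0 hpv, B.swap0 hp'v] at h1
    linear_combination h1
  set E := eV h ⟨v, hvZ⟩ c with hE
  have hEa : ∀ x, E x = x + B.f x p • v - B.f x v • p + (c * B.f x p) • p := fun x =>
    eV_app h ⟨v, hvZ⟩ c x
  have hEp' : E p' = w' := by
    rw [hEa, hb', B.swap0 hp'v, hsum]
    module
  have hmem : ∀ x, x ∈ E⁻¹ • W ↔ E x ∈ W := by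
    intro x
    constructor
    · intro hx
      obtain ⟨u, hu, rfl⟩ := (mem_smul _ _ _).1 hx
      have : E (E⁻¹ u) = u := by
        simp
      rw [this]
      exact hu
    · intro hx
      refine (mem_smul _ _ _).2 ⟨E x, hx, ?_⟩
      simp
  have hW1 : E⁻¹ • W ∈ Sk B Y j := by
    refine ⟨?_, ?_, ?_⟩
    · intro x hx
      have hx' := hWY ((hmem x).1 hx)
      rw [hEa] at hx'
      have e : x = (x + B.f x p • v - B.f x v • p + (c * B.f x p) • p)
          - B.f x p • v + B.f x v • p - (c * B.f x p) • p := by module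
      rw [e]
      exact Y.sub_mem (Y.add_mem (Y.sub_mem hx' (Y.smul_mem _ hvY)) (Y.smul_mem _ h.m1))
        (Y.smul_mem _ h.m1)
    · rw [smul_def]
      rw [← hWj]
      exact LinearEquiv.finrank_map_eq (E⁻¹) W
    · intro x hx y hy
      have := hWs _ ((hmem x).1 hx) _ ((hmem y).1 hy)
      rwa [hE, eV_iso h ⟨v, hvZ⟩ c hAdm] at this
  have hp'W1 : p' ∈ E⁻¹ • W := by
    rw [hmem, hEp']
    exact hw'W
  obtain ⟨i, hi, A, hA, hWA⟩ := type1 (HPs h) _ hW1 hp'W1
  rw [pp_symm] at hA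
  refine ⟨i, hi, ⟨v, hvZ⟩, c, hAdm, A, hA, ?_⟩
  rw [← hE, ← hWA, smul_inv_smul]

/-- The statement without a hypothesis on `σ`. -/
theorem hTyp' [FiniteDimensional F X] : StTyp B where
  t1 := fun _ _ _ _ W h hW hp => type1 h W hW hp
  t2 := fun _ _ _ _ W hY h hW hp hpW => by
    obtain ⟨v, A, hA, hv⟩ := type2 hY h W hW hp hpW
    exact ⟨v, A, hA, fun c _ => hv c⟩
  t3 := fun _ _ _ _ W h hW w hw hpw => type3 h W hW w hw hpw

/-- MODULE TYP. -/
theorem hTyp [FiniteDimensional F X] (_hQ : UN.QE σ) : StTyp B := hTyp'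

end Pool.Agent.Helper78.GUM
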