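import Pool.Agent.Helper70.GUM.St3

/-!
Project GUM (MP_0bd1d1_al), module EXI: a second isotropic vector.
-/

set_option autoImplicit false

namespace Pool.Agent.Helper78.GUT

open Module _root_.GUM Pool.Agent.Helper70.GUM Pool.Agent.Helper70.GUT
open UN (QE)

universe u v y

/-- MODULE EXI. -/
theorem hEXI : StEXI.{u, v, y} := by
  intro k F _ _ _ X _ _ _ σ hσ B hH Y p p' hY h h4
  have hZ : ND B (pp B Y p p') := hH.nd Y p p' h hY
  have hf := hH.fr Y p p' h
  have hpos : ∀ W : Submodule F X, 1 ≤ finrank F W → ∃ a ∈ W, a ≠ 0 := by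
    intro W hW
    apply Submodule.exists_mem_ne_zero_of_ne_bot
    intro hb
    rw [hb, finrank_bot] at hW
    omega
  obtain ⟨a, ha, ha0⟩ := hpos (pp B Y p p') (by omega)
  by_cases haa : B.f a a = 0
  · exact ⟨a, ha, ha0, haa⟩
  obtain ⟨-, hfr⟩ := hH.aniso (pp B Y p p') a ha haa hZ
  obtain ⟨b, hb, hb0⟩ := hpos (pp B Y p p' ⊓ LinearMap.ker (B.l a)) (by omega)
  have hba : B.f b a = 0 := hb.2
  have hab : B.f a b = 0 := B.swap0 hba
  by_cases hbb : B.f b b = 0
  · exact ⟨b, hb.1, hb0, hbb⟩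
  have hfix : σ (-(B.f a a / B.f b b)) = -(B.f a a / B.f b b) := by
    rw [map_neg, map_div₀, ← B.sym, ← B.sym]
  obtain ⟨c, hc⟩ := hσ.fix _ hfix
  obtain ⟨t, ht⟩ := hσ.nrm c
  rw [hc] at ht
  refine ⟨a + t • b, Submodule.add_mem _ ha (Submodule.smul_mem _ _ hb.1), ?_, ?_⟩
  · intro h0
    have h1 : B.f (a + t • b) a = 0 := by rw [h0, B.zero_l]
    rw [B.add, B.smul, hba, mul_zero, add_zero] at h1
    exact haa h1
  · have h1 : t * σ t * B.f b b = -B.f a a := by
      rw [ht]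
      field_simp
    simp only [B.add, B.smul, B.add_r, B.smul_r, hab, hba]
    linear_combination h1

end Pool.Agent.Helper78.GUT
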